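import Pool.Agent.Helper425_zc.Red2

set_option autoImplicit false

namespace Pool.Agent.Results.MP_d109f1_lc.OppositeShifts

/-- The matrices listed by `L`; a quadruple `(a, b, c, d)` stands for the matrix with rows
`(a, b)` and `(c, d)`. -/
def gens (L : List (ℤ × ℤ × ℤ × ℤ)) : Set (Matrix (Fin 2) (Fin 2) ℤ) :=
  {N | ∃ x ∈ L, N = !![x.1, x.2.1; x.2.2.1, x.2.2.2]}

/-- The semigroup they generate under multiplication. -/
def semi (L : List (ℤ × ℤ × ℤ × ℤ)) : Subsemigroup (Matrix (Fin 2) (Fin 2) ℤ) :=
  Subsemigroup.closure (gens L)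

/-- The matrix `M` written in the basis formed by the columns of `P`. -/
noncomputable def inBasis (P : Matrix (Fin 2) (Fin 2) ℚ) (M : Matrix (Fin 2) (Fin 2) ℤ) :
    Matrix (Fin 2) (Fin 2) ℚ :=
  P⁻¹ * M.map (fun z : ℤ => (z : ℚ)) * P

/-- Quotient of the two diagonal entries in the basis `P`. For `M` nonsingular and upper
triangular in that basis, `M` acts on directions by `x ↦ (mult P M) x + shift P M`. -/
noncomputable def mult (P : Matrix (Fin 2) (Fin 2) ℚ) (M : Matrix (Fin 2) (Fin 2) ℤ) : ℚ :=
  inBasis P M 0 0 / inBasis P M 1 1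

/-- Quotient of the upper right by the lower right entry in the basis `P`. -/
noncomputable def shift (P : Matrix (Fin 2) (Fin 2) ℚ) (M : Matrix (Fin 2) (Fin 2) ℤ) : ℚ :=
  inBasis P M 0 1 / inBasis P M 1 1

/-- The class of inputs. In the basis `P` every nonsingular member of `L` is upper triangular;
two nonsingular products are multiples of unipotent matrices with shifts of opposite signs; and
every prime that divides the denominator of the multiplier of one nonsingular member and the
numerator of the multiplier of another (or the same) divides the denominator of the multiplier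
of a nonsingular product whose inverse multiplier also occurs. Singular members are
arbitrary. -/
structure Shifts (L : List (ℤ × ℤ × ℤ × ℤ)) (P : Matrix (Fin 2) (Fin 2) ℚ) : Prop where
  det_ne : P.det ≠ 0
  triangular : ∀ A ∈ gens L, A.det ≠ 0 → inBasis P A 1 0 = 0
  opposite : ∃ M ∈ semi L, ∃ N ∈ semi L, M.det ≠ 0 ∧ N.det ≠ 0 ∧
    mult P M = 1 ∧ mult P N = 1 ∧ shift P M * shift P N < 0
  primes : ∀ p : ℕ, p.Prime → (∃ A ∈ gens L, A.det ≠ 0 ∧ padicValRat p (mult P A) < 0) →
    (∃ A ∈ gens L, A.det ≠ 0 ∧ 0 < padicValRat p (mult P A)) →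
    ∃ M ∈ semi L, ∃ N ∈ semi L, M.det ≠ 0 ∧ N.det ≠ 0 ∧ mult P M * mult P N = 1 ∧
      padicValRat p (mult P M) < 0

/-- One algorithm: whenever it stops its answer to the zero in the corner question is right, and
it stops on every input of the class above. -/
theorem result : ∃ f : List (ℤ × ℤ × ℤ × ℤ) →. Bool, Partrec f ∧
    (∀ L b, b ∈ f L → (b = true ↔ ∃ M ∈ semi L, M 0 0 = 0)) ∧
    (∀ L, (∃ P, Shifts L P) → (f L).Dom) := by
  obtain ⟨f, hf, h1, h2⟩ :=
    Helper425_zc.algoG Helper425_zc.pp_chk3 (fun _ _ _ _ h => Helper425_zc.sound3 h)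
  refine ⟨f, hf, h1, ?_⟩
  rintro L ⟨P, hP⟩
  apply h2
  intro u w _ _
  exact Helper425_zc.case_two' P hP.det_ne hP.triangular hP.opposite hP.primes u w

end Pool.Agent.Results.MP_d109f1_lc.OppositeShifts
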